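import Mathlib
import Pool.Agent.H14.Match

set_option autoImplicit false

namespace Pool.Agent.Results.MP_2a9801_co.Counter

open Pool.Agent.H14.Match

theorem result : ∃ G : SimpleGraph (Fin 10), ∀ (K : Type) [Field K],
    toricIdeal K G ≠ Ideal.span {q | q ∈ toricIdeal K G ∧ q.totalDegree ≤ 4} :=
  ⟨G, main⟩

end Pool.Agent.Results.MP_2a9801_co.Counter
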